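import Mathlib
import Pool.Agent.Lib.MP_944c19_al.Main

/-! A compact special cube complex whose fundamental group is not isomorphic to a Morse subgroup of
any graph product of finite groups. -/

set_option autoImplicit false

namespace Pool.Agent.Results.MP_944c19_al.NoMorseEmbedding

open Pool.Agent.Lib.MP_944c19_al

universe u v

/-- There are a compact connected special cube complex `X` and a vertex `p` of `X` such that for
every finite simplicial graph `Γ`, all finite vertex groups `G x`, every finite generating set `S` of
the graph product and every injective homomorphism `f` from `π₁ X p` to the graph product, the image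
of `f` is not a Morse subgroup. -/
theorem result : ∃ (X : CubeComplex) (p : X.cell 0),
    X.IsCompact ∧ X.IsConnected ∧ X.IsNPC ∧ X.HyperplanesSpecial ∧
    ∀ (V : Type u) (_ : Finite V) (Γ : SimpleGraph V) (G : V → Type v) (_ : ∀ x, Group (G x))
      (_ : ∀ x, Finite (G x)) (S : Set (GraphProduct Γ G)), S.Finite → Subgroup.closure S = ⊤ →
      ∀ f : X.π₁ p →* GraphProduct Γ G, Function.Injective f → ¬ IsMorse S f.range := by
  have : Finite theData.P := inferInstanceAs (Finite (Fin 3))
  have : Finite theData.L := inferInstanceAs (Finite (Fin 10))
  refine ⟨theData.toCube, base, theData.toCube_isCompact, theData_connected,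
    theData.toCube_isNPC, theData.toCube_special, ?_⟩
  intro V _ Γ G _ _ S hS hgen f hf
  obtain ⟨e⟩ := pi1_equiv
  have h := not_isMorse_range hS hgen (f.comp e.symm.toMonoidHom) (hf.comp e.symm.injective)
  have hr : (f.comp e.symm.toMonoidHom).range = f.range := by
    ext x
    constructor
    · rintro ⟨b, rfl⟩
      exact ⟨e.symm b, rfl⟩
    · rintro ⟨a, rfl⟩
      exact ⟨e a, by simp⟩
  rwa [hr] at h

end Pool.Agent.Results.MP_944c19_al.NoMorseEmbedding
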